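import Pool.Agent.helper33.SP.SpecC2S

/-!
# sp:VA9, geometry of the blocks
-/

set_option autoImplicit false

namespace TP

open DP MeasureTheory

theorem VA9_zx (g h P j J m : ℕ) (hj : j < J) (hJ : J * (2 * g + h + 10) + 13 ≤ m) :
    P + g + 8 ≤ zx g h P j ∧ zx g h P j + h + g + 2 + 13 ≤ P + m := by
  have h1 : (j + 1) * (2 * g + h + 10) ≤ J * (2 * g + h + 10) := Nat.mul_le_mul_right _ hj
  have h2 : (j + 1) * (2 * g + h + 10) = j * (2 * g + h + 10) + (2 * g + h + 10) := by ring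
  unfold zx
  omega

theorem VA9_zx2 (g h P j l : ℕ) (hj : j < l) :
    zx g h P j + h + g + 2 ≤ zx g h P l - g - 2 ∧ zx g h P j ≤ zx g h P l - g - 2 ∧
      zx g h P j - g - 2 ≤ zx g h P j ∧ P + 6 ≤ zx g h P l - g - 2 := by
  have h1 : (j + 1) * (2 * g + h + 10) ≤ l * (2 * g + h + 10) := Nat.mul_le_mul_right _ hj
  have h2 : (j + 1) * (2 * g + h + 10) = j * (2 * g + h + 10) + (2 * g + h + 10) := by ring
  unfold zx
  omega

theorem VA9_pow {a b : ℕ} (h : a ≤ b) : (2 : ℕ) ^ a ≤ 2 ^ b := Nat.pow_le_pow_right (by norm_num) h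

theorem VA9_sd1 (x : V) (n : ℕ) : sd x (x.1 + (n : ℤ), x.2) = n := by
  simp only [sd]
  omega

theorem VA9_sd2 (x : V) (n : ℕ) : sd x (x.1, x.2 + (n : ℤ)) = n := by
  simp only [sd]
  omega

theorem VA9 : VA9_stmt := by
  intro i N t p m s g h J x y G bl hbl
  subst hbl
  have hs := G.hs
  have hJ := G.hJ
  have ht := G.ht
  have hm : 13 ≤ m := by omega
  -- distance of the centres
  have hD : sd x y = 2 ^ (p + m + s) := by
    have h2 : ((2 : ℤ) ^ (p + m + s)) = ((2 ^ (p + m + s) : ℕ) : ℤ) := by push_cast; rfl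
    rcases G.y_eq with h1 | h1
    · rw [h1, h2]; exact VA9_sd1 x _
    · rw [h1, h2]; exact VA9_sd2 x _
  have tri1 : ∀ v, sd x y ≤ sd x v + sd y v := fun v => by
    have := sd_triangle x v y
    rw [sd_comm v y] at this
    exact this
  have tri2 : ∀ v, sd x v ≤ sd x y + sd y v := fun v => sd_triangle x y v
  have tri3 : ∀ v, sd y v ≤ sd x y + sd x v := fun v => by
    have := sd_triangle y x v
    rw [sd_comm y x] at this
    exact this
  rw [hD] at tri1 tri2 tri3
  -- powers of two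
  set r : ℕ := 2 ^ (p + 2) with hr
  set b : ℕ := 2 ^ (p + m - 10) with hb
  set D : ℕ := 2 ^ (p + m + s) with hDD
  set e : ℕ := 2 ^ (p + m + 3 * s + 6) with he
  set R : ℕ := 2 ^ (p + m + 3 * s + m - 2) with hR
  have e1 : r ≤ b := VA9_pow (by omega)
  have e2 : 4 * b ≤ D := by
    have : 4 * b = 2 ^ (p + m - 10 + 2) := by rw [hb]; ring
    rw [this]; exact VA9_pow (by omega)
  have e3 : 4 * D ≤ e := by
    have : 4 * D = 2 ^ (p + m + s + 2) := by rw [hDD]; ring
    rw [this]; exact VA9_pow (by omega)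
  have e4 : 4 * D ≤ R := by
    have : 4 * D = 2 ^ (p + m + s + 2) := by rw [hDD]; ring
    rw [this]; exact VA9_pow (by omega)
  have e5 : 0 < r := by positivity
  -- inner blocks
  have hin : ∀ j < J, r < 2 ^ (zx g h (p + 3) j - g - 2) ∧
      2 ^ (zx g h (p + 3) j - g - 2) ≤ 2 ^ (zx g h (p + 3) j) ∧
      2 ^ (zx g h (p + 3) j) ≤ b ∧ 2 ^ (zx g h (p + 3) j + h + g + 2) ≤ b := by
    intro j hj
    obtain ⟨h1, h2⟩ := VA9_zx g h (p + 3) j J m hj hJ
    refine ⟨?_, VA9_pow (by omega), VA9_pow (by omega), VA9_pow (by omega)⟩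
    exact Nat.pow_lt_pow_right (by norm_num) (by omega)
  have hout : ∀ j < J, e ≤ 2 ^ (zx g h (p + m + 3 * s) j - g - 2) ∧
      2 ^ (zx g h (p + m + 3 * s) j - g - 2) ≤ 2 ^ (zx g h (p + m + 3 * s) j) ∧
      2 ^ (zx g h (p + m + 3 * s) j) ≤ R ∧
      2 ^ (zx g h (p + m + 3 * s) j + h + g + 2) ≤ R := by
    intro j hj
    obtain ⟨h1, h2⟩ := VA9_zx g h (p + m + 3 * s) j J m hj hJ
    exact ⟨VA9_pow (by omega), VA9_pow (by omega), VA9_pow (by omega), VA9_pow (by omega)⟩
  refine ⟨?_, ?_, ?_, ?_, ?_, ?_, ?_, ?_⟩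
  · intro j hj
    obtain ⟨i1, i2, i3, i4⟩ := hin j hj
    obtain ⟨o1, o2, o3, o4⟩ := hout j hj
    refine ⟨?_, ?_, ?_⟩
    · rintro v ⟨h1, h2⟩
      have := tri1 v
      exact ⟨by omega, by omega, by omega⟩
    · rintro v ⟨h1, h2⟩
      have := tri1 v
      have := tri2 v
      exact ⟨by omega, by omega, by omega⟩
    · rintro v ⟨h1, h2⟩
      have := tri2 v
      exact ⟨by omega, by omega, by omega⟩
  · intro z P j l hjl
    obtain ⟨h1, h2, h3, -⟩ := VA9_zx2 g h P j l hjl
    have p1 := VA9_pow h1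
    have p2 := VA9_pow h2
    have p3 := VA9_pow h3
    have p4 : (2 : ℕ) ^ (zx g h P j + h) ≤ 2 ^ (zx g h P j + h + g + 2) := VA9_pow (by omega)
    refine ⟨?_, ?_, ?_⟩
    · rw [Set.disjoint_left]
      rintro v ⟨a1, a2⟩ ⟨b1, b2⟩
      omega
    · rw [Set.disjoint_left]
      rintro v a1 ⟨b1, b2⟩
      have a2 : sd z v ≤ 2 ^ (zx g h P j) := a1
      omega
    · rintro v ⟨a1, a2⟩
      exact ⟨by omega, by omega⟩
  · intro j hj l hl
    obtain ⟨i1, i2, i3, i4⟩ := hin j hj
    obtain ⟨i1', i2', i3', i4'⟩ := hin l hl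
    obtain ⟨o1, o2, o3, o4⟩ := hout l hl
    refine ⟨?_, ?_, ?_, ?_, ?_, ?_⟩
    · rw [Set.disjoint_left]
      rintro v ha ⟨b1, b2⟩
      have := tri1 v
      rcases ha with ha | ⟨a1, a2⟩
      · have a2 : sd x v ≤ 2 ^ (zx g h (p + 3) j) := ha
        omega
      · omega
    · rw [Set.disjoint_left]
      rintro v ha ⟨b1, b2⟩
      have := tri1 v
      rcases ha with ha | ⟨a1, a2⟩
      · have a2 : sd y v ≤ 2 ^ (zx g h (p + 3) j) := ha
        omega
      · omega
    · rw [Set.disjoint_left]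
      rintro v ha ⟨b1, b2⟩
      rcases ha with ha | ⟨a1, a2⟩
      · have a2 : sd x v ≤ 2 ^ (zx g h (p + 3) j) := ha
        omega
      · omega
    · rw [Set.disjoint_left]
      rintro v ha ⟨b1, b2⟩
      have := tri2 v
      rcases ha with ha | ⟨a1, a2⟩
      · have a2 : sd y v ≤ 2 ^ (zx g h (p + 3) j) := ha
        omega
      · omega
    · rintro v ⟨a1, a2⟩
      show sd x v ≤ 2 ^ (zx g h (p + m + 3 * s) l)
      omega
    · rintro v ⟨a1, a2⟩
      have := tri2 v
      show sd x v ≤ 2 ^ (zx g h (p + m + 3 * s) l)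
      omega
  · intro j hj
    obtain ⟨i1, i2, i3, i4⟩ := hin j hj
    obtain ⟨o1, o2, o3, o4⟩ := hout j hj
    refine ⟨?_, ?_, ?_⟩
    · ext v
      constructor
      · rintro ⟨h1, h2⟩
        have h1' : sd x v ≤ 2 ^ (zx g h (p + 3) j) := h1
        have := tri1 v
        show sd x v < r
        by_contra hc
        exact h2 ⟨by omega, by omega, by omega⟩
      · intro h1
        have h1' : sd x v < r := h1
        refine ⟨?_, ?_⟩
        · show sd x v ≤ 2 ^ (zx g h (p + 3) j)
          omega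
        · rintro ⟨a1, a2, a3⟩
          omega
    · ext v
      constructor
      · rintro ⟨h1, h2⟩
        have h1' : sd y v ≤ 2 ^ (zx g h (p + 3) j) := h1
        have := tri1 v
        have := tri2 v
        show sd y v < r
        by_contra hc
        exact h2 ⟨by omega, by omega, by omega⟩
      · intro h1
        have h1' : sd y v < r := h1
        refine ⟨?_, ?_⟩
        · show sd y v ≤ 2 ^ (zx g h (p + 3) j)
          omega
        · rintro ⟨a1, a2, a3⟩
          omega
    · ext v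
      constructor
      · rintro ⟨h1, h2⟩
        have h1' : sd x v ≤ 2 ^ (zx g h (p + m + 3 * s) j) := h1
        show sd x v < r ∨ sd y v < r
        by_contra hc
        exact h2 ⟨by omega, by omega, by omega⟩
      · intro h1
        have h1' : sd x v < r ∨ sd y v < r := h1
        have := tri2 v
        refine ⟨?_, ?_⟩
        · show sd x v ≤ 2 ^ (zx g h (p + m + 3 * s) j)
          omega
        · rintro ⟨a1, a2, a3⟩
          omega
  · rw [Set.disjoint_left]
    intro v h1 h2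
    have h1' : sd x v < r := h1
    have h2' : sd y v < r := h2
    have := tri1 v
    omega
  · intro v h1
    have h1' : sd x v ≤ 2 ^ t := h1
    have : (2 : ℕ) ^ t < r := Nat.pow_lt_pow_right (by norm_num) (by omega)
    show sd x v < r
    omega
  · rw [Set.disjoint_left]
    rintro v h1 ⟨a1, a2, a3⟩
    have h1' : sd x v < r := h1
    omega
  · rw [Set.disjoint_left]
    rintro v h1 ⟨a1, a2, a3⟩
    have h1' : sd y v < r := h1
    omega

end TP
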