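import Pool.Agent.helper61.SP.SpecDX
import Pool.Agent.helper17.DP.BFKG
import Pool.Agent.helper95.DP.BEASY

/-!
# sp:DX3, half circles: locality, monotonicity, lower bound
-/

set_option autoImplicit false

namespace TP

open DP MeasureTheory

theorem DX3_rect_fin (a b d e : ℤ) : (rect a b d e).Finite := by
  refine Set.Finite.subset (((Finset.Icc a b) ×ˢ (Finset.Icc d e) : Finset V).finite_toSet) ?_
  rintro ⟨x, y⟩ ⟨h1, h2, h3, h4⟩
  simp only [Finset.coe_product, Finset.coe_Icc, Set.mem_prod, Set.mem_Icc]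
  exact ⟨⟨h1, h2⟩, h3, h4⟩

/-- Congruence. -/
theorem DX3_h_congr {c c' : V → Bool} {a b d e : ℤ} (h : ∀ v ∈ rect a b d e, c v = c' v) :
    hcross c true a b d e ↔ hcross c' true a b d e := by
  unfold hcross
  exact exists_congr fun u => exists_congr fun v => and_congr_right fun _ => and_congr_right
    fun _ => Conn.congr h

theorem DX3_v_congr {c c' : V → Bool} {a b d e : ℤ} (h : ∀ v ∈ rect a b d e, c v = c' v) :
    vcross c true a b d e ↔ vcross c' true a b d e := by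
  unfold vcross
  exact exists_congr fun u => exists_congr fun v => and_congr_right fun _ => and_congr_right
    fun _ => Conn.congr h

theorem DX3_h_mono {c c' : V → Bool} {a b d e : ℤ} (h : ∀ v, c v = true → c' v = true)
    (hc : hcross c true a b d e) : hcross c' true a b d e := by
  obtain ⟨u, v, h1, h2, h3⟩ := hc
  exact ⟨u, v, h1, h2, h3.colour_mono fun w _ => h w⟩

theorem DX3_v_mono {c c' : V → Bool} {a b d e : ℤ} (h : ∀ v, c v = true → c' v = true)
    (hc : vcross c true a b d e) : vcross c' true a b d e := by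
  obtain ⟨u, v, h1, h2, h3⟩ := hc
  exact ⟨u, v, h1, h2, h3.colour_mono fun w _ => h w⟩

theorem DX3_kap_congr {β : V → V} {A : Set V} {ω ω' : V → Bool} (h : ∀ v ∈ β '' A, ω v = ω' v) :
    ∀ v ∈ A, kap β ω v = kap β ω' v := fun v hv => h (β v) ⟨v, hv, rfl⟩

/-- Locality in coins. -/
theorem DX3_loc {β : V → V} {A : Set V} (hA : A.Finite) {F : Set (V → Bool)}
    (h : ∀ ω ω' : V → Bool, (∀ v ∈ A, kap β ω v = kap β ω' v) → (ω ∈ F ↔ ω' ∈ F)) :
    DP.Loc F (β '' A) :=
  DP.Loc.of_finite (hA.image β) fun ω ω' hω => h ω ω' (DX3_kap_congr hω)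

theorem DX3_loc_h (β : V → V) (a b d e : ℤ) :
    DP.Loc {ω | hcross (kap β ω) true a b d e} Set.univ :=
  (DX3_loc (DX3_rect_fin a b d e) fun _ _ h => DX3_h_congr h).mono (Set.subset_univ _)

theorem DX3_loc_v (β : V → V) (a b d e : ℤ) :
    DP.Loc {ω | vcross (kap β ω) true a b d e} Set.univ :=
  (DX3_loc (DX3_rect_fin a b d e) fun _ _ h => DX3_v_congr h).mono (Set.subset_univ _)

theorem DX3_mon_h (β : V → V) (a b d e : ℤ) :
    DP.Mon true {ω | hcross (kap β ω) true a b d e} :=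
  fun _ _ h hc => DX3_h_mono (fun v => h (β v)) hc

theorem DX3_mon_v (β : V → V) (a b d e : ℤ) :
    DP.Mon true {ω | vcross (kap β ω) true a b d e} :=
  fun _ _ h hc => DX3_v_mono (fun v => h (β v)) hc

/-- The FKG inequality for one configuration. -/
theorem DX3_fkg {F G : Set (V → Bool)} (hF : DP.Loc F Set.univ) (hG : DP.Loc G Set.univ)
    (mF : DP.Mon true F) (mG : DP.Mon true G) : Pr F * Pr G ≤ Pr (F ∩ G) := by
  have h := DP.Bfkg (fun _ => 0) true F G Set.univ hF hG mF mG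
  have hFG : DP.Loc (F ∩ G) Set.univ := by simpa using hF.inter hG
  rw [DP.Bzero (fun _ => 0) F F Set.univ hF hF fun _ _ => rfl,
    DP.Bzero (fun _ => 0) G G Set.univ hG hG fun _ _ => rfl,
    DP.Bzero (fun _ => 0) (F ∩ G) (F ∩ G) Set.univ hFG hFG fun _ _ => rfl,
    Set.inter_self, Set.inter_self, Set.inter_self] at h
  exact h

theorem DX3 : DX3_stmt := by
  intro β hβ
  obtain ⟨-, ⟨c, hc, L, hL, H⟩, -⟩ := hβ
  constructor
  · intro s z ℓ hs hsl hz
    constructor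
    · refine DX3_loc ?_ ?_
      · refine (DX3_rect_fin (z - 3 * ℓ) (z + 3 * ℓ) (-(3 * ℓ)) (3 * ℓ)).subset ?_
        rintro ⟨x, y⟩ ⟨-, hv⟩
        simp only [sd] at hv
        simp only [rect, Set.mem_setOf_eq]
        omega
      · intro ω ω' h
        have e1 : ∀ v ∈ rect (z + ℓ + 1) (z + 3 * ℓ) (-s) (3 * ℓ), kap β ω v = kap β ω' v := by
          rintro ⟨x, y⟩ hv
          refine h _ ?_
          simp only [rect, Set.mem_setOf_eq] at hv
          simp only [sd, Set.mem_setOf_eq]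
          omega
        have e2 : ∀ v ∈ rect (max 0 (z - 3 * ℓ)) (z + 3 * ℓ) (ℓ + 1) (3 * ℓ),
            kap β ω v = kap β ω' v := by
          rintro ⟨x, y⟩ hv
          refine h _ ?_
          simp only [rect, Set.mem_setOf_eq] at hv
          simp only [sd, Set.mem_setOf_eq]
          omega
        have e3 : ∀ v ∈ rect (z - 3 * ℓ) (z - ℓ - 1) (-s) (3 * ℓ), kap β ω v = kap β ω' v := by
          rintro ⟨x, y⟩ hv
          refine h _ ?_
          simp only [rect, Set.mem_setOf_eq] at hv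
          simp only [sd, Set.mem_setOf_eq]
          omega
        show HG (kap β ω) s z ℓ ↔ HG (kap β ω') s z ℓ
        unfold HG
        rw [DX3_v_congr e1, DX3_h_congr e2, DX3_v_congr e3]
    · intro ω ω' h hc
      obtain ⟨h1, h2, h3⟩ := hc
      exact ⟨DX3_v_mono (fun v => h (β v)) h1, DX3_h_mono (fun v => h (β v)) h2,
        fun h4 => DX3_v_mono (fun v => h (β v)) (h3 h4)⟩
  · have hprob : IsProbabilityMeasure P1 := by unfold P1; infer_instance
    have hle1 : ∀ F : Set (V → Bool), Pr F ≤ 1 := fun F => by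
      unfold Pr
      exact measureReal_le_one
    have hc1 : c ≤ 1 := ((H 0 L 0 L hL.le hL.le).1 (by omega) (by omega)).trans (hle1 _)
    refine ⟨c ^ 3, by positivity, pow_le_one₀ hc.le hc1, max L 3, ?_⟩
    intro s z ℓ hℓ hs hsl hz
    have hℓ3 : 3 ≤ ℓ := le_trans (le_max_right _ _) hℓ
    have hℓL : L ≤ ℓ := le_trans (le_max_left _ _) hℓ
    have p1 : c ≤ Pr {ω | vcross (kap β ω) true (z + ℓ + 1) (z + 3 * ℓ) (-s) (3 * ℓ)} :=
      (H _ _ _ _ (by omega) (by omega)).2 (by omega) (by omega)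
    have p2 : c ≤ Pr {ω | hcross (kap β ω) true (max 0 (z - 3 * ℓ)) (z + 3 * ℓ) (ℓ + 1) (3 * ℓ)} :=
      (H _ _ _ _ (by omega) (by omega)).1 (by omega) (by omega)
    have p3 : c ≤ Pr {ω | vcross (kap β ω) true (z - 3 * ℓ) (z - ℓ - 1) (-s) (3 * ℓ)} :=
      (H _ _ _ _ (by omega) (by omega)).2 (by omega) (by omega)
    set F1 := {ω | vcross (kap β ω) true (z + ℓ + 1) (z + 3 * ℓ) (-s) (3 * ℓ)} with hF1
    set F2 := {ω | hcross (kap β ω) true (max 0 (z - 3 * ℓ)) (z + 3 * ℓ) (ℓ + 1) (3 * ℓ)} with hF2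
    set F3 := {ω | vcross (kap β ω) true (z - 3 * ℓ) (z - ℓ - 1) (-s) (3 * ℓ)} with hF3
    have l1 : DP.Loc F1 Set.univ := DX3_loc_v _ _ _ _ _
    have l2 : DP.Loc F2 Set.univ := DX3_loc_h _ _ _ _ _
    have l3 : DP.Loc F3 Set.univ := DX3_loc_v _ _ _ _ _
    have m1 : DP.Mon true F1 := DX3_mon_v _ _ _ _ _
    have m2 : DP.Mon true F2 := DX3_mon_h _ _ _ _ _
    have m3 : DP.Mon true F3 := DX3_mon_v _ _ _ _ _
    have l12 : DP.Loc (F1 ∩ F2) Set.univ := by simpa using l1.inter l2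
    have q12 := DX3_fkg l1 l2 m1 m2
    have q := DX3_fkg l12 l3 (m1.inter m2) m3
    have hsub : (F1 ∩ F2) ∩ F3 ⊆ {ω | HG (kap β ω) s z ℓ} := by
      rintro ω ⟨⟨h1, h2⟩, h3⟩
      exact ⟨h1, h2, fun _ => h3⟩
    have hmono : Pr ((F1 ∩ F2) ∩ F3) ≤ Pr {ω | HG (kap β ω) s z ℓ} := by
      unfold Pr
      exact measureReal_mono hsub (measure_ne_top _ _)
    have h12 : c * c ≤ Pr F1 * Pr F2 := mul_le_mul p1 p2 hc.le (hc.le.trans p1)
    have h123 : c * c * c ≤ Pr (F1 ∩ F2) * Pr F3 :=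
      mul_le_mul (h12.trans q12) p3 hc.le ((mul_pos hc hc).le.trans (h12.trans q12))
    calc c ^ 3 = c * c * c := by ring
      _ ≤ Pr (F1 ∩ F2) * Pr F3 := h123
      _ ≤ Pr ((F1 ∩ F2) ∩ F3) := q
      _ ≤ _ := hmono

end TP
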