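import Pool.Agent.helper3.SP.SpecPP
import Pool.Agent.helper95.DP.Fin

/-!
Project sp (MP_7800de_pr): module PK7, the core.
-/

set_option autoImplicit false

namespace TP

open DP MeasureTheory

theorem PK7_dep {F : Set (V → Bool)} {A : Set V} {y : V} {N M : ℕ} (h : Loc F A) (hA : A ⊆ box y N)
    (hM : N + 1 ≤ M) : DP.Dep F (box y M) := by
  obtain ⟨Λ, hΛ, hd⟩ := h
  intro b b' hb
  apply hd
  intro v hv
  apply hb
  have h1 : sd y v ≤ N := hA (hΛ hv)
  have h2 := sd_triangle y v (br v)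
  have h3 := sd_br_le v
  show sd y (br v) ≤ M
  omega

theorem PK7_finR {E : Set (V → Bool)} {y : V} {M : ℕ} (h : DP.Dep E (box y M)) :
    FinR (E.indicator 1) := by
  refine ⟨(box_finite y M).toFinset, ?_⟩
  intro b b' hb
  have h1 : b ∈ E ↔ b' ∈ E := h b b' fun v hv => hb v (by simpa using hv)
  by_cases hE : b ∈ E
  · rw [Set.indicator_of_mem hE, Set.indicator_of_mem (h1.1 hE)]
    rfl
  · rw [Set.indicator_of_notMem hE, Set.indicator_of_notMem (fun h2 => hE (h1.2 h2))]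

theorem PK7_meas {E : Set (V → Bool)} {y : V} {M : ℕ} (h : DP.Dep E (box y M)) : MeasurableSet E := by
  have h1 : DP.Dep E (((box_finite y M).toFinset : Finset V) : Set V) := by
    rw [Set.Finite.coe_toFinset]
    exact h
  exact h1.measurableSet

theorem PK7_av {E : Set (V → Bool)} {y : V} {M : ℕ} (h : DP.Dep E (box y M)) (I : Set V) (b : V → Bool) :
    av I (E.indicator 1) b = Pr {b' | mx I b b' ∈ E} := by
  have h1 : DP.Dep {b' | mx I b b' ∈ E} (box y M) := by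
    intro b₁ b₂ hb
    refine h _ _ fun v hv => ?_
    unfold mx
    split_ifs
    · exact hb v hv
    · rfl
  unfold av Pr
  rw [← integral_indicator_one (PK7_meas h1)]
  refine integral_congr_ae (Filter.Eventually.of_forall fun b' => ?_)
  show E.indicator 1 (mx I b b') = Set.indicator {b' | mx I b b' ∈ E} 1 b'
  by_cases hE : mx I b b' ∈ E
  · rw [Set.indicator_of_mem hE, Set.indicator_of_mem (show b' ∈ {b' | mx I b b' ∈ E} from hE)]
    rfl
  · rw [Set.indicator_of_notMem hE, Set.indicator_of_notMem (show b' ∉ {b' | mx I b b' ∈ E} from hE)]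

theorem PK7_nonneg (F : Set (V → Bool)) : 0 ≤ Pr F := measureReal_nonneg

theorem PK7_mono {F G : Set (V → Bool)} (h : F ⊆ G) : Pr F ≤ Pr G :=
  measureReal_mono h (measure_ne_top _ _)

theorem PK7_hb (y : V) (m n : ℕ) : Loc (Ev fun c => hb c y m n) (box y n) := by
  refine Loc.ev (box_finite y n) fun c c' h => ?_
  have k1 : ∀ (k : Bool) (u v : V), Conn c k (ann y m n) u v ↔ Conn c' k (ann y m n) u v :=
    fun k u v => Conn.congr fun w hw => h w (ann_subset_box y m n hw)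
  have k2 : ∀ (k : Bool) (u v : V), Conn c k (box y n) u v ↔ Conn c' k (box y n) u v :=
    fun k u v => Conn.congr h
  unfold hb
  simp only [k1, k2]

theorem PK7 (h5 : UJ5_stmt) (hK5 : PK5_stmt) (hK2 : PK2_stmt) (hK6 : PK6_stmt) (hK4 : PK4_stmt)
    (h20 : PP20_stmt) (hLG : K.LG_stmt) (hLQ : K.LQ_stmt) : PK7_stmt := by
  obtain ⟨c, g, k₀, hc, hg, hK⟩ := hK5
  refine ⟨c, max k₀ 12 + g + 1, hc, fun y p hy hp => ?_⟩
  obtain ⟨a, rfl⟩ : ∃ a, p = a + g + 1 := ⟨p - g - 1, by omega⟩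
  have ha12 : 12 ≤ a := by omega
  have hak : k₀ ≤ a := by omega
  refine (hK y a hy hak).trans ?_
  -- sizes
  have s1 : (2 : ℕ) ^ (a + g + 2) = 2 * 2 ^ (a + g + 1) := by ring
  have s2 : (2 : ℕ) ^ (a + g + 4) = 8 * 2 ^ (a + g + 1) := by ring
  have s3 : (2 : ℕ) ^ (a + g) ≤ 2 ^ (a + g + 1) := Nat.pow_le_pow_right (by norm_num) (by omega)
  have s4 : (2 : ℕ) ^ (a - 1) ≤ 2 ^ (a + g + 1) := Nat.pow_le_pow_right (by norm_num) (by omega)
  have s5 : (2 : ℕ) ^ (a - 1) ≤ 2 ^ a := Nat.pow_le_pow_right (by norm_num) (by omega)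
  have s6 : 2 ≤ (2 : ℕ) ^ (a + g + 1) := by
    calc (2 : ℕ) = 2 ^ 1 := rfl
      _ ≤ 2 ^ (a + g + 1) := Nat.pow_le_pow_right (by norm_num) (by omega)
  have hIdef : ∀ v, v ∈ Inr y a ↔ sd y v + 2 ≤ 2 ^ (a - 1) := fun v => Iff.rfl
  -- locality
  have hGL : Loc (GtC g y a) (ann y (2 ^ (a - 1)) (2 ^ (a + g + 1))) := by
    refine ((hLG y a (a + g)).1.inter (hLQ.2.2.1 y (a - 1) (a + g + 1) (by omega))).mono ?_
    intro v hv
    rcases hv with hv | hv
    · exact ⟨s5.trans hv.1, hv.2.trans s3⟩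
    · exact hv
  have hHL : Loc (Ev fun c => hb c y (2 ^ a) (2 ^ (a + g))) (box y (2 ^ (a + g))) := PK7_hb y _ _
  have hEL : Loc (Ev fun c => CoB c y (2 ^ (a + g + 1)) ∧ CoW c y (2 ^ (a + g + 1)))
      (box y (2 ^ (a + g + 1))) := by
    refine ((h20.1 y (2 ^ (a + g + 1))).1.inter (h20.2 y (2 ^ (a + g + 1))).1).mono ?_
    intro v hv
    rcases hv with hv | hv
    · exact hv.1
    · exact hv.1
  have dG : DP.Dep (GtC g y a) (box y (2 ^ (a + g + 2))) :=
    PK7_dep hGL (ann_subset_box _ _ _) (by omega)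
  have dH : DP.Dep (Ev fun c => hb c y (2 ^ a) (2 ^ (a + g))) (box y (2 ^ (a + g + 2))) :=
    PK7_dep hHL (N := 2 ^ (a + g)) le_rfl (by omega)
  have dH' : DP.Dep (Ev fun c => ¬ hb c y (2 ^ a) (2 ^ (a + g))) (box y (2 ^ (a + g + 2))) :=
    fun b b' hbb => not_congr (dH b b' hbb)
  have dE : DP.Dep (Ev fun c => CoB c y (2 ^ (a + g + 1)) ∧ CoW c y (2 ^ (a + g + 1)))
      (box y (2 ^ (a + g + 2))) := PK7_dep hEL (N := 2 ^ (a + g + 1)) le_rfl (by omega)
  have hbr : ∀ v ∈ ann y (2 ^ (a - 1)) (2 ^ (a + g + 1)), 2 ^ (a - 1) ≤ sd y (br v) + 1 ∧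
      sd y (br v) ≤ 2 ^ (a + g + 1) + 1 := by
    intro v hv
    have h1 := sd_triangle y v (br v)
    have h2 := sd_triangle y (br v) v
    have h3 := sd_br_le v
    rw [sd_comm (br v) v] at h2
    have h4 : 2 ^ (a - 1) ≤ sd y v := hv.1
    have h6 : sd y v ≤ 2 ^ (a + g + 1) := hv.2
    omega
  have hinv : ∀ b b' : V → Bool, (∀ v, v ∉ Inr y a → b v = b' v) → (b ∈ GtC g y a ↔ b' ∈ GtC g y a) := by
    intro b b' hbb
    obtain ⟨Λ, hΛ, hd⟩ := hGL
    refine hd b b' fun v hv => hbb _ ?_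
    rw [hIdef]
    have := hbr v (hΛ hv)
    omega
  have hrl : ∀ b : V → Bool, b ∈ GtC g y a →
      (fun v => b (rlf (Inr y a) (2 ^ (a + g + 4)) v)) ∈ GtC g y a := by
    intro b hb
    obtain ⟨Λ, hΛ, hd⟩ := hGL
    refine (hd b _ fun v hv => ?_).1 hb
    have h1 := hbr v (hΛ hv)
    have h2 : rlf (Inr y a) (2 ^ (a + g + 4)) (br v) = br v := by
      unfold rlf
      rw [if_neg, if_neg]
      · rw [hIdef]
        have h3 : sd y (br v) ≤ 2 ^ (a + g + 1) + 1 := h1.2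
        have h4 : (((2 : ℕ) ^ (a + g + 4) : ℕ) : ℤ) = 8 * ((2 ^ (a + g + 1) : ℕ) : ℤ) := by
          rw [s2]; push_cast; ring
        rw [sd_le_iff] at h3
        have h5 : ¬ sd y ((br v).1 - (((2 : ℕ) ^ (a + g + 4) : ℕ) : ℤ), (br v).2) ≤ 2 ^ (a - 1) := by
          rw [sd_le_iff]
          intro h6
          have h7 := h6.1
          simp only at h7
          rw [h4] at h7
          generalize (2 : ℕ) ^ (a + g + 1) = N at *
          generalize (2 : ℕ) ^ (a - 1) = M at *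
          omega
        omega
      · rw [hIdef]
        omega
    show b (br v) = b (rlf (Inr y a) (2 ^ (a + g + 4)) (br v))
    rw [h2]
  -- step one
  have step1 : Pr {b | b ∈ GtC g y a ∧ Lps (col b) true (coreB y (2 ^ (a - 6))).all ∧
      Lps (col fun v => b (rlf (Inr y a) (2 ^ (a + g + 4)) v)) false (coreW y (2 ^ (a - 6))).all} ≤
      Pr {b | b ∈ GtC g y a ∧ b ∈ (Ev fun c => hb c y (2 ^ a) (2 ^ (a + g))) ∧
        (fun v => b (rlf (Inr y a) (2 ^ (a + g + 4)) v)) ∈ (Ev fun c => ¬ hb c y (2 ^ a) (2 ^ (a + g)))} := by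
    refine PK7_mono ?_
    rintro b ⟨h1, h2, h3⟩
    refine ⟨h1, (hK2 b y g a hg ha12 hy h1).1 h2, ?_⟩
    exact (hK2 _ y g a hg ha12 hy (hrl b h1)).2 h3
  refine step1.trans ?_
  rw [hK6 (GtC g y a) (Ev fun c => hb c y (2 ^ a) (2 ^ (a + g)))
    (Ev fun c => ¬ hb c y (2 ^ a) (2 ^ (a + g))) y (Inr y a) (2 ^ (a + g + 2)) (2 ^ (a + g + 4))
    (by omega) ?_ dG dH dH' hinv]
  · have hF := PK7_finR dE
    have hav := h5.1 (Inr y a) _ hF
    have e1 : Pr (Ev fun c => CoB c y (2 ^ (a + g + 1)) ∧ CoW c y (2 ^ (a + g + 1))) =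
        ∫ b, av (Inr y a) ((Ev fun c => CoB c y (2 ^ (a + g + 1)) ∧
          CoW c y (2 ^ (a + g + 1))).indicator 1) b ∂P1 := by
      rw [hav.2.2.2, integral_indicator_one (PK7_meas dE)]
      rfl
    rw [e1]
    refine integral_mono_of_nonneg (Filter.Eventually.of_forall fun b => ?_)
      (h5.1 (Inr y a) _ hav.1).2.2.1 (Filter.Eventually.of_forall fun b => ?_)
    · refine mul_nonneg ?_ (mul_nonneg (PK7_nonneg _) (PK7_nonneg _))
      exact Set.indicator_nonneg (fun _ _ => zero_le_one) b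
    · show (GtC g y a).indicator 1 b * _ ≤ av (Inr y a) _ b
      rw [PK7_av dE]
      by_cases hb : b ∈ GtC g y a
      · rw [Set.indicator_of_mem hb]
        show (1 : ℝ) * _ ≤ _
        rw [one_mul]
        exact hK4 b y g a hg ha12 hy hb
      · rw [Set.indicator_of_notMem hb, zero_mul]
        exact PK7_nonneg _
  · intro v hv
    rw [hIdef] at hv
    show sd y v ≤ 2 ^ (a + g + 2)
    omega

end TP
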