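import Pool.Agent.helper3.SP.SpecPP
import Pool.Agent.helper38.DP.SF

/-!
Project sp (MP_7800de_pr): module PP30, standard arms of one colour are in different clusters.
-/

set_option autoImplicit false

namespace TP

open DP

theorem PP30_oth (c : V → Bool) (k : Bool) (x : V) (m n : ℕ) (h : Std c 4 true x n (Dmark 4 x m)) (j : ℕ)
    (hj : j < 4) (hk : kol j = k) :
    ∃ u ∈ bd x n, sd (zpt x n j) u ≤ n / 64 ∧ ∃ p ∈ bd x m, Conn c k (ann x m n) p u := by
  have hM : MrkC c 4 true x n (Dmark 4 x m) (zpt x n) (n / 64) (n / 8) k := by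
    cases k
    · exact h.2
    · exact h.1
  have hsub : HS true x n \ ((Dmark 4 x m).N k ∪ opp 4 (zpt x n) (n / 8) k) ⊆ ann x m n := by
    intro z hz
    have h1 : sd x z ≤ n := hz.1
    refine ⟨?_, h1⟩
    by_contra hlt
    exact hz.2 (Or.inl (Or.inl (by simpa using hlt)))
  rcases hM with hM | hM
  · obtain ⟨p, hp, u, hu, h1, h2⟩ := hM j hj hk
    exact ⟨u, hu, h1, p, hp.1, Conn.mono hsub h2⟩
  · have hk' : kol ((j + 2) % 4) = k := by
      rw [← hk]
      interval_cases j <;> rfl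
    obtain ⟨p, hp, u, hu, h1, h2⟩ := hM ((j + 2) % 4) (Nat.mod_lt _ (by norm_num)) hk'
    have e : ((j + 2) % 4 + 2) % 4 = j := by omega
    rw [e] at h1
    exact ⟨u, hu, h1, p, hp.1, Conn.mono hsub h2⟩

theorem PP30_alt (x : V) (n : ℕ) (u₁ u₂ u₃ u₄ : V) (h1 : u₁ ∈ bd x n) (h2 : u₂ ∈ bd x n)
    (h3 : u₃ ∈ bd x n) (h4 : u₄ ∈ bd x n) (h12 : pos x n u₁ < pos x n u₂) (h23 : pos x n u₂ < pos x n u₃)
    (h : pos x n u₃ < pos x n u₄ ∨ pos x n u₄ < pos x n u₁) : alt x n u₁ u₂ u₃ u₄ := by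
  refine ⟨⟨h1, h2, h3, h4⟩, ?_, Or.inl ⟨SF_arc _ _ _ _ _ h1 h3 h2 ?_, SF_arc _ _ _ _ _ h3 h1 h4 ?_⟩⟩
  · simp only [List.nodup_cons, List.mem_cons, List.not_mem_nil, or_false, not_or,
      not_false_eq_true, List.nodup_nil, and_true]
    refine ⟨⟨?_, ?_, ?_⟩, ⟨?_, ?_⟩, ?_⟩ <;> rintro rfl <;> omega
  · exact Or.inl ⟨h12.le, h23.le⟩
  · rcases h with h | h
    · exact Or.inr (Or.inr ⟨by omega, h.le⟩)
    · exact Or.inr (Or.inl ⟨h.le, by omega⟩)

theorem PP30 (hOF : OF_stmt) : PP30_stmt := by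
  intro c k x u u' p p' m n hx hm hmn hS hu hu' hp hp' hz hz' hc hc' huu
  have hn : 64 ≤ n := by omega
  cases k
  · obtain ⟨w0, hw0, hz0, q0, hq0, hc0⟩ := PP30_oth c true x m n hS 0 (by norm_num) rfl
    obtain ⟨w2, hw2, hz2, q2, hq2, hc2⟩ := PP30_oth c true x m n hS 2 (by norm_num) rfl
    simp only [Bool.false_eq_true, if_false] at hz hz'
    have p1 := SF_pos x n 1 u (by norm_num) hn hu hz
    have p3 := SF_pos x n 3 u' (by norm_num) hn hu' hz'
    have p0 := SF_pos x n 0 w0 (by norm_num) hn hw0 hz0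
    have p2 := SF_pos x n 2 w2 (by norm_num) hn hw2 hz2
    push_cast at p0 p1 p2 p3
    refine hOF c false x m n hx (by omega) (by omega) u w2 u' w0
      (PP30_alt x n _ _ _ _ hu hw2 hu' hw0 (by omega) (by omega) (Or.inr (by omega)))
      hc.colour_right hc2.colour_right hc'.colour_right hc0.colour_right
      ⟨hu, p, hp, ?_⟩ ⟨hw2, q2, hq2, ?_⟩ ⟨hu', p', hp', ?_⟩ ⟨hw0, q0, hq0, ?_⟩ huu
    · rw [hc.colour_right]; exact hc.symm
    · rw [hc2.colour_right]; exact hc2.symm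
    · rw [hc'.colour_right]; exact hc'.symm
    · rw [hc0.colour_right]; exact hc0.symm
  · obtain ⟨w1, hw1, hz1, q1, hq1, hc1⟩ := PP30_oth c false x m n hS 1 (by norm_num) rfl
    obtain ⟨w3, hw3, hz3, q3, hq3, hc3⟩ := PP30_oth c false x m n hS 3 (by norm_num) rfl
    simp only [if_true] at hz hz'
    have p0 := SF_pos x n 0 u (by norm_num) hn hu hz
    have p2 := SF_pos x n 2 u' (by norm_num) hn hu' hz'
    have p1 := SF_pos x n 1 w1 (by norm_num) hn hw1 hz1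
    have p3 := SF_pos x n 3 w3 (by norm_num) hn hw3 hz3
    push_cast at p0 p1 p2 p3
    refine hOF c true x m n hx (by omega) (by omega) u w1 u' w3
      (PP30_alt x n _ _ _ _ hu hw1 hu' hw3 (by omega) (by omega) (Or.inl (by omega)))
      hc.colour_right hc1.colour_right hc'.colour_right hc3.colour_right
      ⟨hu, p, hp, ?_⟩ ⟨hw1, q1, hq1, ?_⟩ ⟨hu', p', hp', ?_⟩ ⟨hw3, q3, hq3, ?_⟩ huu
    · rw [hc.colour_right]; exact hc.symm
    · rw [hc1.colour_right]; exact hc1.symm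
    · rw [hc'.colour_right]; exact hc'.symm
    · rw [hc3.colour_right]; exact hc3.symm

end TP
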