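import Pool.Agent.helper3.SP.SpecPP

/-!
Project sp (MP_7800de_pr): module PP33, the deterministic conclusion of piece C2P.
-/

set_option autoImplicit false

namespace TP

open DP

theorem PP33_rc_w (c : V → Bool) (w v : V) (h : c v = false) : rc c w false v = false := by
  unfold rc
  split_ifs
  · rfl
  · exact h

theorem PP33_rc_b (c : V → Bool) (w v : V) (h : rc c w false v = true) : c v = true := by
  unfold rc at h
  split_ifs at h
  exact h

theorem PP33_mono {c c' : V → Bool} {x : V} {m n : ℕ} {k : Bool} (hc : ∀ v, c v = k → c' v = k)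
    (h : Mk4 c x m n k) : Mk4 c' x m n k := by
  rcases h with h | h
  · left
    intro i hi hk
    obtain ⟨p, hp, u, hu, h1, h2⟩ := h i hi hk
    exact ⟨p, hp, u, hu, h1, h2.colour_mono fun v _ hv => hc v hv⟩
  · right
    intro i hi hk
    obtain ⟨p, hp, u, hu, h1, h2⟩ := h i hi hk
    exact ⟨p, hp, u, hu, h1, h2.colour_mono fun v _ hv => hc v hv⟩

theorem PP33_gate {c c' : V → Bool} {x : V} {m n : ℕ} (hc : ∀ v ∈ ann x m n, c v = c' v)
    (h : Gate c x m n) : Gate c' x m n := by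
  have key : ∀ (k : Bool) (u v : V), Conn c k (ann x m n) u v ↔ Conn c' k (ann x m n) u v :=
    fun k u v => Conn.congr hc
  have h2 := h
  simp only [Gate, four, twoCl, Three, key] at h2
  simp only [Gate, four, twoCl, Three]
  exact h2

theorem PP33 (hSF : SF_stmt) (hMF : MF_stmt) (hAM : AM_stmt) (h27 : PP27_stmt) (h29 : PP29_stmt)
    (h31 : PP31_stmt) (h32 : PP32_stmt) : PP33_stmt := by
  intro c x m₀ n₂ ℓ₁ ℓ S ℓ₃ hP hx hG1 hG2 hB hW hLB hLW
  obtain ⟨a1, a2, a3, a4, a5, a6⟩ := id hP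
  have hq : 256 * (S * ℓ) ≤ S ^ 3 * ℓ := by
    calc 256 * (S * ℓ) = (16 * 16) * (S * ℓ) := by ring
      _ ≤ (S * S) * (S * ℓ) := Nat.mul_le_mul (Nat.mul_le_mul a4 a4) le_rfl
      _ = S ^ 3 * ℓ := by ring
  have hq2 : 16 * ℓ ≤ S * ℓ := Nat.mul_le_mul a4 le_rfl
  have hy : yc x ℓ S = (x.1 + 32 * ((S * ℓ : ℕ) : ℤ), x.2) := by
    unfold yc
    congr 1
    push_cast
    ring
  have hWh : Mk4 c x m₀ (2 * n₂) false := h29 c x m₀ (2 * n₂) ℓ₁ ℓ S ℓ₃ hP hW hLW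
  have h4 : ∀ w : V, (w.1 + w.2) % 2 = 0 → w ∈ WS x (yc x ℓ S) (512 * ℓ₁) (16 * ℓ₃) →
      four (rc c w false) x (2 * m₀) n₂ := by
    intro w hw hwS
    have hb := h27 c x w m₀ (2 * n₂) ℓ₁ ℓ S ℓ₃ hP hB hLB hw hwS
    have hwh : Mk4 (rc c w false) x m₀ (2 * n₂) false := PP33_mono (fun v hv => PP33_rc_w c w v hv) hWh
    have hS : Std (rc c w false) 4 true x (2 * n₂) (Dmark 4 x m₀) := ⟨hb, hwh⟩
    have hF := hSF (rc c w false) 4 true x (2 * n₂) (Dmark 4 x m₀) (Or.inr rfl) (by omega) hS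
    have hA := (hMF (rc c w false) 4 x m₀ (2 * n₂) (Or.inr rfl) hx a1 (by omega)).1 hF
    have hA2 := hAM (rc c w false) 4 x m₀ (2 * m₀) n₂ (2 * n₂) (Or.inr rfl) (by omega) (by omega) (by omega) hA
    simpa [ar] using hA2
  have hbl : Mk4 c x m₀ (2 * n₂) true := by
    have hwS : ((x.1 - 1024 * (ℓ₁ : ℤ), x.2) : V) ∈ WS x (yc x ℓ S) (512 * ℓ₁) (16 * ℓ₃) := by
      rw [hy]
      unfold WS sd
      simp only [Set.mem_ofPred_eq]
      generalize S * ℓ = q at *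
      generalize S ^ 3 * ℓ = q3 at *
      refine ⟨?_, ?_, ?_⟩ <;> omega
    refine PP33_mono (fun v hv => PP33_rc_b c _ v hv)
      (h27 c x (x.1 - 1024 * (ℓ₁ : ℤ), x.2) m₀ (2 * n₂) ℓ₁ ℓ S ℓ₃ hP hB hLB ?_ hwS)
    have := Int.even_iff.1 hx
    simp only
    omega
  refine ⟨⟨hG1, hG2, h4, ?_⟩, ⟨hbl, hWh⟩⟩
  obtain ⟨z, hz, hyz, u, u', p, p', hu, hu', hp, hp', hc1, hc2, hc3, hc4⟩ :=
    h31 c x m₀ n₂ (2 * m₀) ℓ₁ ℓ S ℓ₃ hP hx (by omega) hB.2.2.2.2.2 hW hLW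
  refine ⟨z, hz, by omega, ?_⟩
  have hfar : ∀ v ∈ ann x (512 * ℓ₃) n₂, c v = rc c z false v := by
    intro v hv
    have h1 : 512 * ℓ₃ ≤ sd x v := hv.1
    unfold rc
    rw [if_neg]
    intro hbr
    have h2 := br_eq_sd hbr
    have h3 := sd_triangle x z v
    have h5 := sd_triangle x (yc x ℓ S) z
    have h6 : sd x (yc x ℓ S) ≤ 32 * (S * ℓ) := by
      rw [hy]
      unfold sd
      simp only
      omega
    rw [sd_comm v z] at h2
    generalize S * ℓ = q at *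
    generalize S ^ 3 * ℓ = q3 at *
    omega
  refine h32 (rc c z false) x u u' p p' (2 * m₀) (512 * ℓ₃) n₂ hx (by omega) ?_ (by omega)
    (PP33_gate hfar hG2) hu hu' hp hp' ((Conn.congr hfar).1 hc1) ((Conn.congr hfar).1 hc2)
    (fun h => hc3 ((Conn.congr hfar).2 h)) hc4
  generalize S * ℓ = q at *
  generalize S ^ 3 * ℓ = q3 at *
  omega

end TP
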