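import Pool.Agent.helper31.SP.SpecTL
import Pool.Agent.helper95.DP.Fin

/-!
# sp:TL1, tail inequality for the spectral sample
-/

set_option autoImplicit false

namespace TP

open DP MeasureTheory

/-- The character of a finite set of coins. -/
noncomputable def TL1_ch (T : Finset V) (b : V → Bool) : ℝ := ∏ v ∈ T, sg (b v)

/-- Fourier coefficient of a function. -/
noncomputable def TL1_fc (f : (V → Bool) → ℝ) (T : Finset V) : ℝ := ex1 fun b => f b * TL1_ch T b

theorem TL1_ch_lf {T Λ : Finset V} (h : T ⊆ Λ) : LF Λ (TL1_ch T) := by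
  intro b b' hb
  unfold TL1_ch
  exact Finset.prod_congr rfl fun v hv => by rw [hb v (h hv)]

theorem TL1_ch_update {T : Finset V} {v : V} (hv : v ∉ T) (b : V → Bool) (a : Bool) :
    TL1_ch T (Function.update b v a) = TL1_ch T b := by
  unfold TL1_ch
  refine Finset.prod_congr rfl fun u hu => ?_
  have huv : u ≠ v := by
    rintro rfl
    exact hv hu
  rw [Function.update_of_ne huv]

theorem TL1_ch_insert {T : Finset V} {v : V} (hv : v ∉ T) (b : V → Bool) (a : Bool) :
    TL1_ch (insert v T) (Function.update b v a) = sg a * TL1_ch T b := by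
  have h1 : TL1_ch (insert v T) (Function.update b v a) =
      sg (Function.update b v a v) * TL1_ch T (Function.update b v a) := by
    unfold TL1_ch
    rw [Finset.prod_insert hv]
  rw [h1, TL1_ch_update hv, Function.update_self]

theorem TL1_fc_site {Λ T : Finset V} {f : (V → Bool) → ℝ} {v : V} (hf : LF (insert v Λ) f)
    (hT : T ⊆ Λ) (hv : v ∉ T) :
    TL1_fc f T = (TL1_fc (upd f v true) T + TL1_fc (upd f v false) T) / 2 ∧
      TL1_fc f (insert v T) = (TL1_fc (upd f v true) T - TL1_fc (upd f v false) T) / 2 := by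
  constructor
  · unfold TL1_fc
    have h1 : LF (insert v Λ) (fun b => f b * TL1_ch T b) :=
      hf.comp₂ (TL1_ch_lf (hT.trans (Finset.subset_insert _ _))) (· * ·)
    rw [ex1_site h1 v]
    simp only [TL1_ch_update hv]
    rfl
  · unfold TL1_fc
    have h1 : LF (insert v Λ) (fun b => f b * TL1_ch (insert v T) b) :=
      hf.comp₂ (TL1_ch_lf (Finset.insert_subset_insert _ hT)) (· * ·)
    rw [ex1_site h1 v]
    simp only [TL1_ch_insert hv]
    have e1 : (fun b : V → Bool => f (Function.update b v true) * (sg true * TL1_ch T b)) =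
        fun b => upd f v true b * TL1_ch T b := by
      funext b
      simp [sg, upd]
    have e2 : (fun b : V → Bool => f (Function.update b v false) * (sg false * TL1_ch T b)) =
        fun b => (-1) * (upd f v false b * TL1_ch T b) := by
      funext b
      simp [sg, upd]
    rw [e1, e2, ex1_mul]
    ring

/-- The bilinear form in the Fourier basis. -/
theorem TL1_fourier {Λ : Finset V} {f g : (V → Bool) → ℝ} (ρ : V → ℝ) (hf : LF Λ f)
    (hg : LF Λ g) :
    bf ρ f g = ∑ T ∈ Λ.powerset, TL1_fc f T * TL1_fc g T * ∏ v ∈ T, (1 - clip (ρ v)) := by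
  classical
  induction Λ using Finset.induction_on generalizing f g with
  | empty =>
    have e1 : f = fun _ => f (fun _ => false) := funext fun w => hf.empty _ _
    have e2 : g = fun _ => g (fun _ => false) := funext fun w => hg.empty _ _
    rw [Finset.powerset_empty, Finset.sum_singleton, Finset.prod_empty, mul_one]
    rw [e1, e2]
    unfold bf TL1_fc TL1_ch
    simp only [Finset.prod_empty, mul_one, ex2_const, ex1_const]
  | insert v s hv ih =>
    rw [Finset.sum_powerset_insert hv, bf_site ρ hf hg v, ih (hf.upd true) (hg.upd true),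
      ih (hf.upd false) (hg.upd false), ih (hf.upd true) (hg.upd false),
      ih (hf.upd false) (hg.upd true), ← Finset.sum_add_distrib]
    simp only [← Finset.sum_add_distrib, Finset.mul_sum]
    refine Finset.sum_congr rfl fun T hT => ?_
    rw [Finset.mem_powerset] at hT
    have hvT : v ∉ T := fun h => hv (hT h)
    obtain ⟨a1, a2⟩ := TL1_fc_site hf hT hvT
    obtain ⟨b1, b2⟩ := TL1_fc_site hg hT hvT
    rw [Finset.prod_insert hvT, a1, a2, b1, b2]
    ring

theorem TL1_pmf (F : Set (V → Bool)) : pmf F = fun b => 2 * ind F b - 1 := rfl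

theorem TL1_fh (F : Set (V → Bool)) (T : Finset V) : fh F T = TL1_fc (pmf F) T := rfl

theorem TL1_pmf_lf {Λ : Finset V} {F : Set (V → Bool)} (hF : DP.Dep F (Λ : Set V)) :
    LF Λ (pmf F) := by
  rw [TL1_pmf]
  exact hF.lf.comp (fun x => 2 * x - 1)

theorem TL1_Q {Λ : Finset V} {F : Set (V → Bool)} (hF : DP.Dep F (Λ : Set V)) (ρ : V → ℝ) :
    bf ρ (pmf F) (pmf F) = 4 * Q ρ F F - 4 * Pr F + 1 := by
  have h1 := hF.lf
  have h2 : LF Λ (fun b => 2 * ind F b) := h1.comp (fun x => 2 * x)
  have hc : LF Λ (fun _ : V → Bool => (1 : ℝ)) := LF.const 1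
  have h3 : LF Λ (fun b => 2 * ind F b - 1) := h1.comp (fun x => 2 * x - 1)
  rw [TL1_pmf, bf_sub_left ρ h2 hc h3, bf_sub_right ρ h2 h2 hc, bf_sub_right ρ hc h2 hc,
    bf_mul_left, bf_mul_right, bf_one_right ρ h2, bf_one_right ρ hc, ex1_const, ex1_mul,
    bf_mul_right, bf_symm ρ hc h1, bf_one_right ρ h1, ← Q_eq ρ hF hF, ← Pr_eq hF]
  ring

theorem TL1_pow (s : ℝ) (k : ℕ) (h0 : 0 < s) (h1 : s ≤ 1 / 2) (h : (k : ℝ) * s ≤ 1) :
    1 / 4 ≤ (1 - s) ^ k := by
  have hp : 0 < 1 - s := by linarith
  have hcc := strictConcaveOn_log_Ioi.concaveOn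
  have h2 := hcc.2 (show (1 : ℝ) ∈ Set.Ioi (0 : ℝ) by norm_num)
    (show (1 / 2 : ℝ) ∈ Set.Ioi (0 : ℝ) by norm_num) (show 0 ≤ 1 - 2 * s by linarith)
    (show 0 ≤ 2 * s by linarith) (by ring)
  simp only [smul_eq_mul, Real.log_one, mul_zero, zero_add] at h2
  have e1 : (1 - 2 * s) * 1 + 2 * s * (1 / 2) = 1 - s := by ring
  rw [e1] at h2
  have e2 : Real.log (1 / 2) = -Real.log 2 := by rw [one_div, Real.log_inv]
  rw [e2] at h2
  have hl : 0 < Real.log 2 := Real.log_pos (by norm_num)
  have h3 : -(2 * Real.log 2) ≤ k * Real.log (1 - s) := by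
    have hk : (0 : ℝ) ≤ k := Nat.cast_nonneg k
    have h4 := mul_le_mul_of_nonneg_left h2 hk
    have h5 : (k : ℝ) * (2 * s * -Real.log 2) = -(2 * Real.log 2 * (k * s)) := by ring
    rw [h5] at h4
    have h6 : 2 * Real.log 2 * (k * s) ≤ 2 * Real.log 2 * 1 :=
      mul_le_mul_of_nonneg_left h (by linarith)
    linarith
  have h7 : (1 - s) ^ k = Real.exp (k * Real.log (1 - s)) := by
    rw [mul_comm, Real.exp_mul, Real.exp_log hp, Real.rpow_natCast]
  rw [h7]
  have h8 : (1 / 4 : ℝ) = Real.exp (-(2 * Real.log 2)) := by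
    rw [Real.exp_neg, two_mul, Real.exp_add, Real.exp_log (by norm_num)]
    norm_num
  rw [h8]
  exact Real.exp_le_exp.2 h3

theorem TL1 : TL1_stmt := by
  classical
  intro Λ B F s hF hB h0 h1
  have hρ := TL1_fourier (fun v => if v ∈ B then s else 1) (TL1_pmf_lf hF) (TL1_pmf_lf hF)
  have hone := TL1_fourier (fun _ => 1) (TL1_pmf_lf hF) (TL1_pmf_lf hF)
  rw [TL1_Q hF] at hρ hone
  have key : 4 * (Q (fun v => if v ∈ B then s else 1) F F - Q (fun _ => 1) F F) =
      ∑ T ∈ Λ.powerset, TL1_fc (pmf F) T ^ 2 *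
        ((∏ v ∈ T, (1 - clip (if v ∈ B then s else 1))) - ∏ v ∈ T, (1 - clip 1)) := by
    have : 4 * (Q (fun v => if v ∈ B then s else 1) F F - Q (fun _ => 1) F F) =
        (4 * Q (fun v => if v ∈ B then s else 1) F F - 4 * Pr F + 1) -
          (4 * Q (fun _ => 1) F F - 4 * Pr F + 1) := by ring
    rw [this, hρ, hone, ← Finset.sum_sub_distrib]
    refine Finset.sum_congr rfl fun T _ => ?_
    ring
  have hclip1 : clip 1 = 1 := clip_of_mem zero_le_one le_rfl
  have hclips : clip s = s := clip_of_mem h0.le (by linarith)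
  have key2 : (1 / 4) * PSF F Λ (fun X => X.Nonempty ∧ X ⊆ (B : Set V) ∧ (X.ncard : ℝ) * s ≤ 1) ≤
      4 * (Q (fun v => if v ∈ B then s else 1) F F - Q (fun _ => 1) F F) := by
    rw [key]
    unfold PSF
    rw [Finset.mul_sum]
    refine Finset.sum_le_sum fun T _ => ?_
    rw [← TL1_fh]
    have hsq : 0 ≤ fh F T ^ 2 := sq_nonneg _
    rcases T.eq_empty_or_nonempty with hT | hT
    · subst hT
      simp
    · have hz : ∏ v ∈ T, (1 - clip (1 : ℝ)) = 0 := by
        obtain ⟨v, hv⟩ := hT
        exact Finset.prod_eq_zero hv (by rw [hclip1, sub_self])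
      rw [hz, sub_zero]
      have hw : 0 ≤ ∏ v ∈ T, (1 - clip (if v ∈ B then s else 1)) :=
        Finset.prod_nonneg fun v _ => by
          have := clip_le_one (if v ∈ B then s else 1)
          linarith
      split_ifs with hA
      · obtain ⟨-, hA2, hA3⟩ := hA
        have hw2 : ∏ v ∈ T, (1 - clip (if v ∈ B then s else 1)) = (1 - s) ^ T.card := by
          rw [← Finset.prod_const]
          refine Finset.prod_congr rfl fun v hv => ?_
          rw [if_pos (by exact_mod_cast hA2 (by exact_mod_cast hv)), hclips]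
        rw [hw2]
        rw [Set.ncard_coe_finset] at hA3
        have h4 := TL1_pow s T.card h0 h1 hA3
        nlinarith
      · rw [mul_zero]
        exact mul_nonneg hsq hw
  linarith

end TP
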